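import Mathlib

set_option autoImplicit false

namespace Pool.Agent.Results.MP_8db9c5_an.SwapIsometry

open Set Topology Filter

/-- A real Banach space is reflexive if the canonical embedding in its bidual is onto. -/
def IsReflexive (X : Type) [NormedAddCommGroup X] [NormedSpace ℝ X] : Prop :=
  Function.Surjective (NormedSpace.inclusionInDoubleDual ℝ X)

/-- `x` is an unconditional Schauder basis of `X`: every vector is the sum of an unconditionally
convergent series `∑ c n • x n`, and the coefficients are unique, even among the expansions whose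
partial sums converge only in the given order. -/
def IsUncondBasis {X : Type} [NormedAddCommGroup X] [NormedSpace ℝ X] (x : ℕ → X) : Prop :=
  ∀ v : X, ∃ c : ℕ → ℝ, HasSum (fun n => c n • x n) v ∧
    ∀ c' : ℕ → ℝ, Tendsto (fun N => ∑ n ∈ Finset.range N, c' n • x n) atTop (𝓝 v) → c' = c

/-- The set of the numbers `‖∑_{i<k} (∑_{j=p(i)}^{q(i)} a_j) x_{p(i)}‖` over all `k ≥ 1` and
`p(0) ≤ q(0) < p(1) ≤ q(1) < ... < p(k-1) ≤ q(k-1)` (indices start at `0`). -/
def JSet {X : Type} [NormedAddCommGroup X] [NormedSpace ℝ X] (x : ℕ → X) (a : ℕ →₀ ℝ) : Set ℝ :=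
  {r | ∃ (k : ℕ) (p q : ℕ → ℕ), 1 ≤ k ∧ (∀ i < k, p i ≤ q i) ∧ (∀ i, i + 1 < k → q i < p (i + 1)) ∧
    r = ‖∑ i ∈ Finset.range k, (∑ j ∈ Finset.Icc (p i) (q i), a j) • x (p i)‖}

/-- The norm of the Jamesification `J(x_i)` on finitely supported sequences. -/
noncomputable def JNorm {X : Type} [NormedAddCommGroup X] [NormedSpace ℝ X] (x : ℕ → X)
    (a : ℕ →₀ ℝ) : ℝ := sSup (JSet x a)

section general

variable {X : Type} [NormedAddCommGroup X] [NormedSpace ℝ X] {x : ℕ → X}

theorem p_lt {k : ℕ} {p q : ℕ → ℕ} (h1 : ∀ i < k, p i ≤ q i)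
    (h2 : ∀ i, i + 1 < k → q i < p (i + 1)) (i j : ℕ) (hij : i < j) (hj : j < k) : q i < p j := by
  induction j with
  | zero => omega
  | succ j ih =>
    rcases Nat.lt_succ_iff_lt_or_eq.mp hij with h | h
    · have := ih h (by omega)
      have h3 := h1 j (by omega)
      have h4 := h2 j hj
      omega
    · subst h
      exact h2 i hj

theorem JSet_bdd (hx : ∀ n, ‖x n‖ = 1) (a : ℕ →₀ ℝ) : BddAbove (JSet x a) := by
  refine ⟨∑ j ∈ a.support, |a j|, ?_⟩
  rintro r ⟨k, p, q, hk, h1, h2, rfl⟩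
  calc ‖∑ i ∈ Finset.range k, (∑ j ∈ Finset.Icc (p i) (q i), a j) • x (p i)‖
      ≤ ∑ i ∈ Finset.range k, ‖(∑ j ∈ Finset.Icc (p i) (q i), a j) • x (p i)‖ := norm_sum_le _ _
    _ = ∑ i ∈ Finset.range k, |∑ j ∈ Finset.Icc (p i) (q i), a j| := by
        apply Finset.sum_congr rfl
        intro i _
        rw [norm_smul, hx, mul_one, Real.norm_eq_abs]
    _ ≤ ∑ i ∈ Finset.range k, ∑ j ∈ Finset.Icc (p i) (q i), |a j| := by
        apply Finset.sum_le_sum
        intro i _
        exact Finset.abs_sum_le_sum_abs _ _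
    _ = ∑ j ∈ (Finset.range k).biUnion (fun i => Finset.Icc (p i) (q i)), |a j| := by
        rw [Finset.sum_biUnion]
        intro i hi j hj hij
        simp only [Finset.coe_range, Set.mem_Iio] at hi hj
        rw [Function.onFun, Finset.disjoint_left]
        intro m hm hm'
        simp only [Finset.mem_Icc] at hm hm'
        rcases lt_or_gt_of_ne hij with h | h
        · have := p_lt h1 h2 i j h hj
          omega
        · have := p_lt h1 h2 j i h hi
          omega
    _ ≤ ∑ j ∈ a.support ∪ (Finset.range k).biUnion (fun i => Finset.Icc (p i) (q i)), |a j| := by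
        apply Finset.sum_le_sum_of_subset_of_nonneg Finset.subset_union_right
        intro _ _ _; exact abs_nonneg _
    _ = ∑ j ∈ a.support, |a j| := by
        symm
        apply Finset.sum_subset Finset.subset_union_left
        intro j _ hj
        simp only [Finsupp.mem_support_iff, not_not] at hj
        rw [hj, abs_zero]

theorem block_le (hx : ∀ n, ‖x n‖ = 1) (a : ℕ →₀ ℝ) {k : ℕ} {p q : ℕ → ℕ} (hk : 1 ≤ k)
    (h1 : ∀ i < k, p i ≤ q i) (h2 : ∀ i, i + 1 < k → q i < p (i + 1)) :
    ‖∑ i ∈ Finset.range k, (∑ j ∈ Finset.Icc (p i) (q i), a j) • x (p i)‖ ≤ JNorm x a :=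
  le_csSup (JSet_bdd hx a) ⟨k, p, q, hk, h1, h2, rfl⟩

theorem single_le (hx : ∀ n, ‖x n‖ = 1) (a : ℕ →₀ ℝ) (p q : ℕ) (h : p ≤ q) :
    |∑ j ∈ Finset.Icc p q, a j| ≤ JNorm x a := by
  have := block_le hx a (k := 1) (p := fun _ => p) (q := fun _ => q) le_rfl (fun _ _ => h)
    (fun i hi => by omega)
  simpa [norm_smul, hx] using this

theorem JSet_nonempty (a : ℕ →₀ ℝ) : (JSet x a).Nonempty :=
  ⟨_, 1, fun _ => 0, fun _ => 0, le_rfl, fun _ _ => le_rfl, fun i hi => by omega, rfl⟩

theorem JNorm_nonneg (a : ℕ →₀ ℝ) : 0 ≤ JNorm x a := by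
  apply Real.sSup_nonneg
  rintro r ⟨k, p, q, -, -, -, rfl⟩
  exact norm_nonneg _

theorem JNorm_add (hx : ∀ n, ‖x n‖ = 1) (a b : ℕ →₀ ℝ) :
    JNorm x (a + b) ≤ JNorm x a + JNorm x b := by
  apply csSup_le (JSet_nonempty _)
  rintro r ⟨k, p, q, hk, h1, h2, rfl⟩
  have : ∑ i ∈ Finset.range k, (∑ j ∈ Finset.Icc (p i) (q i), (a + b) j) • x (p i)
      = ∑ i ∈ Finset.range k, (∑ j ∈ Finset.Icc (p i) (q i), a j) • x (p i)
        + ∑ i ∈ Finset.range k, (∑ j ∈ Finset.Icc (p i) (q i), b j) • x (p i) := by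
    rw [← Finset.sum_add_distrib]
    apply Finset.sum_congr rfl
    intro i _
    rw [← add_smul, ← Finset.sum_add_distrib]
    rfl
  rw [this]
  exact (norm_add_le _ _).trans (add_le_add (block_le hx a hk h1 h2) (block_le hx b hk h1 h2))

theorem JNorm_smul_le (hx : ∀ n, ‖x n‖ = 1) (c : ℝ) (a : ℕ →₀ ℝ) :
    JNorm x (c • a) ≤ |c| * JNorm x a := by
  apply csSup_le (JSet_nonempty _)
  rintro r ⟨k, p, q, hk, h1, h2, rfl⟩
  have : ∑ i ∈ Finset.range k, (∑ j ∈ Finset.Icc (p i) (q i), (c • a) j) • x (p i)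
      = c • ∑ i ∈ Finset.range k, (∑ j ∈ Finset.Icc (p i) (q i), a j) • x (p i) := by
    rw [Finset.smul_sum]
    apply Finset.sum_congr rfl
    intro i _
    rw [smul_smul, Finset.mul_sum]
    rfl
  rw [this, norm_smul, Real.norm_eq_abs]
  exact mul_le_mul_of_nonneg_left (block_le hx a hk h1 h2) (abs_nonneg c)

theorem JNorm_eq_zero (hx : ∀ n, ‖x n‖ = 1) (a : ℕ →₀ ℝ) (h : JNorm x a = 0) : a = 0 := by
  ext n
  have := single_le hx a n n le_rfl
  rw [h] at this
  simp only [Finset.Icc_self, Finset.sum_singleton] at this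
  exact abs_nonpos_iff.mp this

end general

/-- The finitely supported sequence `(1, -2, 1, 0, 0, ...)`. -/
noncomputable def w : ℕ →₀ ℝ := Finsupp.single 0 1 + Finsupp.single 1 (-2) + Finsupp.single 2 1

theorem w0 : w 0 = 1 := by simp [w]
theorem w1 : w 1 = -2 := by simp [w]
theorem w2 : w 2 = 1 := by simp [w]
theorem w3 (n : ℕ) (hn : 3 ≤ n) : w n = 0 := by
  have h0 : (0:ℕ) ≠ n := by omega
  have h1 : (1:ℕ) ≠ n := by omega
  have h2 : (2:ℕ) ≠ n := by omega
  simp [w, Finsupp.single_apply, h0, h1, h2]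

/-- The linear involution `(a_0, a_1, a_2, a_3, ...) ↦ (a_0 + a_1, -a_1, a_1 + a_2, a_3, ...)`. -/
noncomputable def T0 : (ℕ →₀ ℝ) →ₗ[ℝ] (ℕ →₀ ℝ) :=
  LinearMap.id + (Finsupp.lapply 1).smulRight w

theorem T0_apply (a : ℕ →₀ ℝ) (n : ℕ) : T0 a n = a n + a 1 * w n := by
  simp [T0]

theorem T0_inv : Function.Involutive T0 := by
  intro a
  ext n
  rw [T0_apply, T0_apply, T0_apply, w1]
  ring

theorem sum_T0 (a : ℕ →₀ ℝ) (p q : ℕ) : ∑ j ∈ Finset.Icc p q, T0 a j
    = ∑ j ∈ Finset.Icc p q, a j + a 1 * ∑ j ∈ Finset.Icc p q, w j := by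
  rw [Finset.mul_sum, ← Finset.sum_add_distrib]
  exact Finset.sum_congr rfl (fun j _ => T0_apply a j)

theorem sum_w3 (p q : ℕ) (hp : 3 ≤ p) : ∑ j ∈ Finset.Icc p q, w j = 0 := by
  apply Finset.sum_eq_zero
  intro j hj
  rw [Finset.mem_Icc] at hj
  exact w3 j (by omega)

theorem sum_w_ge (p q : ℕ) (hq : 2 ≤ q) :
    ∑ j ∈ Finset.Icc p q, w j = ∑ j ∈ Finset.Icc p 2, w j := by
  symm
  apply Finset.sum_subset (Finset.Icc_subset_Icc_right hq)
  intro j hj hj'
  rw [Finset.mem_Icc] at hj hj'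
  exact w3 j (by omega)

theorem split1 (a : ℕ →₀ ℝ) (q : ℕ) (hq : 2 ≤ q) :
    ∑ j ∈ Finset.Icc 1 q, a j = a 1 + ∑ j ∈ Finset.Icc 2 q, a j := by
  have : Finset.Icc 1 q = insert 1 (Finset.Icc 2 q) := by
    ext j; simp only [Finset.mem_Icc, Finset.mem_insert]; omega
  rw [this, Finset.sum_insert (by simp)]

theorem swap_block (a : ℕ →₀ ℝ) (p q : ℕ) (hpq : p ≤ q) (hp : p < 3) :
    ∃ p' q', p' ≤ q' ∧ |∑ j ∈ Finset.Icc p q, T0 a j| = |∑ j ∈ Finset.Icc p' q', a j| := by
  have i02 : Finset.Icc 0 2 = {0, 1, 2} := by decide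
  have i12 : Finset.Icc 1 2 = {1, 2} := by decide
  have i01 : Finset.Icc 0 1 = {0, 1} := by decide
  rcases Nat.lt_or_ge q 2 with hq | hq
  · have hq' : q = 0 ∨ q = 1 := by omega
    rcases hq' with rfl | rfl
    · have : p = 0 := by omega
      subst this
      refine ⟨0, 1, by omega, ?_⟩
      rw [sum_T0, i01]
      simp [w0]
    · have hp' : p = 0 ∨ p = 1 := by omega
      rcases hp' with rfl | rfl
      · refine ⟨0, 0, le_rfl, ?_⟩
        rw [sum_T0, i01]
        simp [w0, w1]
        congr 1; ring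
      · refine ⟨1, 1, le_rfl, ?_⟩
        rw [sum_T0]
        simp only [Finset.Icc_self, Finset.sum_singleton, w1]
        rw [show a 1 + a 1 * -2 = -(a 1) by ring, abs_neg]
  · rw [sum_T0, sum_w_ge p q hq]
    interval_cases p
    · refine ⟨0, q, by omega, ?_⟩
      rw [i02]
      have : ∑ j ∈ ({0, 1, 2} : Finset ℕ), w j = 0 := by
        rw [Finset.sum_insert (by decide), Finset.sum_insert (by decide), Finset.sum_singleton,
          w0, w1, w2]; norm_num
      rw [this, mul_zero, add_zero]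
    · refine ⟨2, q, hq, ?_⟩
      rw [i12]
      have : ∑ j ∈ ({1, 2} : Finset ℕ), w j = -1 := by
        rw [Finset.sum_insert (by decide), Finset.sum_singleton, w1, w2]; norm_num
      rw [this, split1 a q hq]
      congr 1; ring
    · refine ⟨1, q, by omega, ?_⟩
      rw [Finset.Icc_self, Finset.sum_singleton, w2, split1 a q hq]
      congr 1; ring

section space

variable {H : Type} [NormedAddCommGroup H] [InnerProductSpace ℝ H] [CompleteSpace H]

/-- The basis of `(ℝ³, max norm) × H` with the maximum of the two norms. -/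
noncomputable def bas (b : HilbertBasis ℕ ℝ H) (n : ℕ) : (Fin 3 → ℝ) × H :=
  (fun c => if n = c.val then 1 else 0, if 3 ≤ n then b (n - 3) else 0)

theorem bas_norm (b : HilbertBasis ℕ ℝ H) (n : ℕ) : ‖bas b n‖ = 1 := by
  rw [Prod.norm_def]
  by_cases hn : 3 ≤ n
  · have h1 : (bas b n).1 = 0 := by
      funext c
      have := c.isLt
      simp only [bas, Pi.zero_apply]
      rw [if_neg (by omega)]
    have h2 : (bas b n).2 = b (n - 3) := by simp [bas, hn]
    rw [h1, h2, b.orthonormal.1 (n - 3), norm_zero]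
    norm_num
  · have h2 : (bas b n).2 = 0 := by simp [bas, hn]
    have h1 : ‖(bas b n).1‖ = 1 := by
      apply le_antisymm
      · rw [pi_norm_le_iff_of_nonneg zero_le_one]
        intro c
        simp only [bas]
        split_ifs <;> simp
      · have := norm_le_pi_norm (bas b n).1 ⟨n, by omega⟩
        simpa [bas] using this
    rw [h1, h2, norm_zero]
    norm_num

theorem T0_le (b : HilbertBasis ℕ ℝ H) (a : ℕ →₀ ℝ) :
    JNorm (bas b) (T0 a) ≤ JNorm (bas b) a := by
  apply csSup_le (JSet_nonempty _)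
  rintro r ⟨k, p, q, hk, h1, h2, rfl⟩
  rw [Prod.norm_def]
  apply max_le
  · rw [pi_norm_le_iff_of_nonneg (JNorm_nonneg a)]
    intro c
    rw [Prod.fst_sum, Finset.sum_apply]
    by_cases hc : ∃ i < k, p i = c.val
    · obtain ⟨i, hi, hic⟩ := hc
      rw [Finset.sum_eq_single i]
      · have hval : (((∑ j ∈ Finset.Icc (p i) (q i), T0 a j) • bas b (p i)).1 c)
            = ∑ j ∈ Finset.Icc (p i) (q i), T0 a j := by
          simp [bas, hic]
        rw [hval, Real.norm_eq_abs]
        obtain ⟨p', q', hpq', heq⟩ := swap_block a (p i) (q i) (h1 i hi) (by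
          rw [hic]; exact c.isLt)
        rw [heq]
        exact single_le (bas_norm b) a p' q' hpq'
      · intro j hj hji
        rw [Finset.mem_range] at hj
        have hne : p j ≠ c.val := by
          intro hjc
          rcases lt_or_gt_of_ne hji with h | h
          · have := p_lt h1 h2 j i h hi
            have := h1 j hj
            omega
          · have := p_lt h1 h2 i j h hj
            have := h1 i hi
            omega
        simp [bas, hne]
      · intro hi'
        exact absurd (Finset.mem_range.mpr hi) hi'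
    · push Not at hc
      rw [Finset.sum_eq_zero]
      · rw [norm_zero]; exact JNorm_nonneg a
      · intro i hi
        rw [Finset.mem_range] at hi
        simp [bas, hc i hi]
  · have : (∑ i ∈ Finset.range k, (∑ j ∈ Finset.Icc (p i) (q i), T0 a j) • bas b (p i)).2
        = (∑ i ∈ Finset.range k, (∑ j ∈ Finset.Icc (p i) (q i), a j) • bas b (p i)).2 := by
      rw [Prod.snd_sum, Prod.snd_sum]
      apply Finset.sum_congr rfl
      intro i hi
      by_cases h3 : 3 ≤ p i
      · rw [sum_T0, sum_w3 _ _ h3, mul_zero, add_zero]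
      · simp [bas, h3]
    rw [this]
    exact (norm_snd_le _).trans (block_le (bas_norm b) a hk h1 h2)

theorem T0_eq (b : HilbertBasis ℕ ℝ H) (a : ℕ →₀ ℝ) :
    JNorm (bas b) (T0 a) = JNorm (bas b) a := by
  apply le_antisymm (T0_le b a)
  conv_lhs => rw [← T0_inv a]
  exact T0_le b (T0 a)

/-- coordinate functionals -/
noncomputable def phi (b : HilbertBasis ℕ ℝ H) (m : ℕ) : (Fin 3 → ℝ) × H →L[ℝ] ℝ :=
  if h : m < 3 then (ContinuousLinearMap.proj (⟨m, h⟩ : Fin 3)).comp (ContinuousLinearMap.fst ℝ _ _)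
  else (innerSL ℝ (b (m - 3))).comp (ContinuousLinearMap.snd ℝ _ _)

theorem phi_bas (b : HilbertBasis ℕ ℝ H) (m n : ℕ) :
    phi b m (bas b n) = if n = m then 1 else 0 := by
  unfold phi
  split_ifs with h h' h'
  · subst h'
    simp [bas]
  · simp [bas, h']
  · subst h'
    simp only [ContinuousLinearMap.coe_comp, Function.comp_apply, ContinuousLinearMap.coe_snd',
      innerSL_apply_apply]
    have : 3 ≤ n := by omega
    simp only [bas, this, if_true]
    rw [real_inner_self_eq_norm_sq, b.orthonormal.1]; norm_num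
  · simp only [ContinuousLinearMap.coe_comp, Function.comp_apply, ContinuousLinearMap.coe_snd',
      innerSL_apply_apply]
    by_cases hn : 3 ≤ n
    · simp only [bas, hn, if_true]
      exact b.orthonormal.2 (by omega)
    · simp [bas, hn]

theorem bas_basis (b : HilbertBasis ℕ ℝ H) : IsUncondBasis (bas b) := by
  intro v
  refine ⟨fun n => phi b n v, ?_, ?_⟩
  · have h1 : HasSum (fun n => phi b (n + 3) v • bas b (n + 3)) ((0 : Fin 3 → ℝ), v.2) := by
      have h2 : (fun n => phi b (n + 3) v • bas b (n + 3))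
          = fun n => ((0 : Fin 3 → ℝ), b.repr v.2 n • b n) := by
        funext n
        have h3 : phi b (n + 3) v = b.repr v.2 n := by
          unfold phi
          rw [dif_neg (by omega), HilbertBasis.repr_apply_apply]
          simp
        rw [h3]
        refine Prod.ext ?_ ?_
        · funext c
          have := c.isLt
          have hne : n + 3 ≠ c.val := by omega
          simp [bas, hne]
        · simp [bas]
      rw [h2]
      exact hasSum_zero.prodMk (b.hasSum_repr v.2)
    have h4 := (hasSum_nat_add_iff (f := fun n => phi b n v • bas b n) 3).mp h1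
    have h5 : ((0 : Fin 3 → ℝ), v.2) + ∑ i ∈ Finset.range 3, phi b i v • bas b i = v := by
      rw [Finset.sum_range_succ, Finset.sum_range_succ, Finset.sum_range_succ,
        Finset.sum_range_zero]
      refine Prod.ext ?_ ?_
      · funext c
        fin_cases c <;> simp [bas, phi]
      · simp [bas]
    rwa [h5] at h4
  · intro c' hc'
    funext m
    have h1 : Tendsto (fun N => phi b m (∑ n ∈ Finset.range N, c' n • bas b n)) atTop
        (𝓝 (phi b m v)) := ((phi b m).continuous.tendsto v).comp hc'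
    have h2 : Tendsto (fun N => phi b m (∑ n ∈ Finset.range N, c' n • bas b n)) atTop
        (𝓝 (c' m)) := by
      apply tendsto_const_nhds.congr'
      filter_upwards [eventually_gt_atTop m] with N hN
      rw [map_sum]
      rw [Finset.sum_eq_single m]
      · rw [map_smul, phi_bas]; simp
      · intro n _ hnm
        rw [map_smul, phi_bas, if_neg hnm, smul_zero]
      · intro h
        exact absurd (Finset.mem_range.mpr hN) h
    exact tendsto_nhds_unique h2 h1

theorem snd_norm_sq (b : HilbertBasis ℕ ℝ H) (s : Finset ℕ) (d : ℕ → ℝ) :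
    ‖(∑ n ∈ s, d n • bas b n).2‖ ^ 2
      = ∑ m ∈ (s.filter (fun n => 3 ≤ n)).image (fun n => n - 3), (d (m + 3)) ^ 2 := by
  have h1 : (∑ n ∈ s, d n • bas b n).2
      = ∑ m ∈ (s.filter (fun n => 3 ≤ n)).image (fun n => n - 3), d (m + 3) • b m := by
    rw [Prod.snd_sum, Finset.sum_image, Finset.sum_filter]
    · apply Finset.sum_congr rfl
      intro n _
      split_ifs with h
      · have : n - 3 + 3 = n := by omega
        simp [bas, h, this]
      · simp [bas, h]
    · intro m hm n hn hmn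
      simp only [Finset.coe_filter, Set.mem_setOf_eq] at hm hn
      simp only at hmn
      have h1 : 3 ≤ m := hm.2
      have h2 : 3 ≤ n := hn.2
      omega
  rw [h1, ← real_inner_self_eq_norm_sq, b.orthonormal.inner_sum]
  apply Finset.sum_congr rfl
  intro m _
  simp [sq]

theorem bas_mono (b : HilbertBasis ℕ ℝ H) (s : Finset ℕ) (c d : ℕ → ℝ)
    (h : ∀ n, |c n| ≤ |d n|) :
    ‖∑ n ∈ s, c n • bas b n‖ ≤ ‖∑ n ∈ s, d n • bas b n‖ := by
  rw [Prod.norm_def, Prod.norm_def]
  apply max_le_max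
  · rw [pi_norm_le_iff_of_nonneg (norm_nonneg _)]
    intro i
    refine le_trans ?_ (norm_le_pi_norm (∑ n ∈ s, d n • bas b n).1 i)
    rw [Prod.fst_sum, Prod.fst_sum, Finset.sum_apply, Finset.sum_apply]
    by_cases hi : i.val ∈ s
    · rw [Finset.sum_eq_single i.val, Finset.sum_eq_single i.val]
      · simpa [bas] using h i.val
      · intro n _ hn; simp [bas, hn]
      · intro h'; exact absurd hi h'
      · intro n _ hn; simp [bas, hn]
      · intro h'; exact absurd hi h'
    · rw [Finset.sum_eq_zero]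
      · rw [norm_zero]; exact norm_nonneg _
      · intro n hn
        have : n ≠ i.val := fun h' => hi (h' ▸ hn)
        simp [bas, this]
  · apply le_of_sq_le_sq _ (norm_nonneg _)
    rw [snd_norm_sq, snd_norm_sq]
    apply Finset.sum_le_sum
    intro m _
    exact sq_le_sq.mpr (h (m + 3))

end space

theorem refl_prod (E F : Type) [NormedAddCommGroup E] [NormedSpace ℝ E] [NormedAddCommGroup F]
    [NormedSpace ℝ F] (hE : IsReflexive E) (hF : IsReflexive F) : IsReflexive (E × F) := by
  intro Φ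
  let P1 : StrongDual ℝ E →L[ℝ] StrongDual ℝ (E × F) :=
    (ContinuousLinearMap.compL ℝ (E × F) E ℝ).flip (ContinuousLinearMap.fst ℝ E F)
  let P2 : StrongDual ℝ F →L[ℝ] StrongDual ℝ (E × F) :=
    (ContinuousLinearMap.compL ℝ (E × F) F ℝ).flip (ContinuousLinearMap.snd ℝ E F)
  obtain ⟨e, he⟩ := hE (Φ.comp P1)
  obtain ⟨f, hf⟩ := hF (Φ.comp P2)
  refine ⟨(e, f), ?_⟩
  ext g
  have hg : g = P1 (g.comp (ContinuousLinearMap.inl ℝ E F))
      + P2 (g.comp (ContinuousLinearMap.inr ℝ E F)) := by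
    apply ContinuousLinearMap.ext
    rintro ⟨u, v⟩
    simp only [P1, P2, ContinuousLinearMap.add_apply, ContinuousLinearMap.flip_apply,
      ContinuousLinearMap.compL_apply, ContinuousLinearMap.coe_comp, Function.comp_apply,
      ContinuousLinearMap.coe_fst', ContinuousLinearMap.coe_snd', ContinuousLinearMap.inl_apply,
      ContinuousLinearMap.inr_apply]
    rw [← map_add]
    simp
  have h1 := congrArg (fun Ψ => Ψ (g.comp (ContinuousLinearMap.inl ℝ E F))) he
  have h2 := congrArg (fun Ψ => Ψ (g.comp (ContinuousLinearMap.inr ℝ E F))) hf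
  simp only [NormedSpace.dual_def, ContinuousLinearMap.coe_comp, Function.comp_apply,
    ContinuousLinearMap.inl_apply, ContinuousLinearMap.inr_apply] at h1 h2
  rw [NormedSpace.dual_def]
  conv_rhs => rw [hg]
  rw [map_add, ← h1, ← h2, ← map_add]
  simp

theorem refl_fin : IsReflexive (Fin 3 → ℝ) := by
  intro Φ
  refine ⟨fun i => Φ (ContinuousLinearMap.proj i), ?_⟩
  ext f
  rw [NormedSpace.dual_def]
  have hf : f = ∑ i : Fin 3, f (Pi.single i 1) • (ContinuousLinearMap.proj i :
      (Fin 3 → ℝ) →L[ℝ] ℝ) := by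
    apply ContinuousLinearMap.ext
    intro u
    have hu : u = ∑ i : Fin 3, u i • (Pi.single i (1:ℝ) : Fin 3 → ℝ) := by
      funext j
      simp [Finset.sum_apply, Pi.single_apply]
    conv_lhs => rw [hu]
    rw [map_sum]
    simp only [map_smul, ContinuousLinearMap.sum_apply, ContinuousLinearMap.smul_apply,
      ContinuousLinearMap.proj_apply, smul_eq_mul]
    exact Finset.sum_congr rfl (fun i _ => mul_comm _ _)
  have hv : (fun i => Φ (ContinuousLinearMap.proj i) : Fin 3 → ℝ)
      = ∑ i : Fin 3, Φ (ContinuousLinearMap.proj i) • (Pi.single i (1:ℝ) : Fin 3 → ℝ) := by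
    funext j
    simp [Finset.sum_apply, Pi.single_apply]
  rw [hv, map_sum]
  conv_rhs => rw [hf, map_sum]
  simp only [map_smul, smul_eq_mul]
  exact Finset.sum_congr rfl (fun i _ => mul_comm _ _)

theorem refl_hilbert (H : Type) [NormedAddCommGroup H] [InnerProductSpace ℝ H] [CompleteSpace H] :
    IsReflexive H := by
  intro Φ
  let L : H →ₗ[ℝ] ℝ :=
    { toFun := fun v => Φ (innerSL ℝ v)
      map_add' := fun u v => by rw [map_add, map_add]
      map_smul' := fun c v => by
        rw [map_smulₛₗ, map_smul]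
        simp }
  let Lc : StrongDual ℝ H := L.mkContinuous ‖Φ‖ (fun v => by
    have := Φ.le_opNorm (innerSL ℝ v)
    rwa [innerSL_apply_norm] at this)
  obtain ⟨y, hy⟩ := (InnerProductSpace.toDual ℝ H).surjective Lc
  refine ⟨y, ?_⟩
  ext f
  obtain ⟨z, rfl⟩ := (InnerProductSpace.toDual ℝ H).surjective f
  rw [NormedSpace.dual_def]
  have h1 : Lc z = Φ (InnerProductSpace.toDual ℝ H z) := rfl
  rw [← h1, ← hy, InnerProductSpace.toDual_apply_apply, InnerProductSpace.toDual_apply_apply]
  exact real_inner_comm _ _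

/-- `(J, ι)` is the Jamesification `J(x_i)`: the completion of the finitely supported sequences
`c₀₀ = (ℕ →₀ ℝ)` under the norm `JNorm x`. -/
def IsJamesification {X : Type} [NormedAddCommGroup X] [NormedSpace ℝ X] (x : ℕ → X)
    (J : Type) [NormedAddCommGroup J] [NormedSpace ℝ J] (ι : (ℕ →₀ ℝ) →ₗ[ℝ] J) : Prop :=
  CompleteSpace J ∧ DenseRange ι ∧ ∀ a, ‖ι a‖ = JNorm x a

theorem exists_jam {X : Type} [NormedAddCommGroup X] [NormedSpace ℝ X] (x : ℕ → X)
    (hx : ∀ n, ‖x n‖ = 1) :
    ∃ (J : Type) (_ : NormedAddCommGroup J) (_ : NormedSpace ℝ J) (ι : (ℕ →₀ ℝ) →ₗ[ℝ] J),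
      IsJamesification x J ι := by
  have hzero : JNorm x 0 = 0 := by
    have := JNorm_smul_le hx 0 0
    simp only [smul_zero, abs_zero, zero_mul] at this
    exact le_antisymm this (JNorm_nonneg 0)
  letI : Norm (ℕ →₀ ℝ) := ⟨JNorm x⟩
  have core : NormedSpace.Core ℝ (ℕ →₀ ℝ) :=
    { norm_nonneg := fun a => JNorm_nonneg a
      norm_smul := fun c a => by
        change JNorm x (c • a) = |c| * JNorm x a
        apply le_antisymm (JNorm_smul_le hx c a)
        by_cases hc : c = 0
        · subst hc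
          rw [abs_zero, zero_mul]; exact JNorm_nonneg _
        · have h1 := JNorm_smul_le hx c⁻¹ (c • a)
          rw [smul_smul, inv_mul_cancel₀ hc, one_smul, abs_inv] at h1
          have hc' : 0 < |c| := abs_pos.mpr hc
          calc |c| * JNorm x a ≤ |c| * (|c|⁻¹ * JNorm x (c • a)) :=
                mul_le_mul_of_nonneg_left h1 hc'.le
            _ = JNorm x (c • a) := by rw [← mul_assoc, mul_inv_cancel₀ hc'.ne', one_mul]
      norm_triangle := fun a b => JNorm_add hx a b
      norm_eq_zero_iff := fun a => ⟨JNorm_eq_zero hx a, fun h => by rw [h]; exact hzero⟩ }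
  letI : NormedAddCommGroup (ℕ →₀ ℝ) := NormedAddCommGroup.ofCore core
  letI : NormedSpace ℝ (ℕ →₀ ℝ) := NormedSpace.ofCore core
  refine ⟨UniformSpace.Completion (ℕ →₀ ℝ), inferInstance, inferInstance,
    (UniformSpace.Completion.toComplₗᵢ (𝕜 := ℝ) (E := ℕ →₀ ℝ)).toLinearMap, ?_, ?_, ?_⟩
  · infer_instance
  · exact UniformSpace.Completion.denseRange_coe
  · intro a
    exact UniformSpace.Completion.norm_coe a

/-- There are a reflexive real Banach space `X` and a normalised 1-unconditional basis `(x_i)` of `X`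
such that the Jamesification `J(x_i)` has a surjective linear isometry different from `± Id`. -/
theorem result :
    ∃ (X : Type) (_ : NormedAddCommGroup X) (_ : NormedSpace ℝ X) (_ : CompleteSpace X)
      (x : ℕ → X), IsReflexive X ∧ IsUncondBasis x ∧ (∀ n, ‖x n‖ = 1) ∧
      (∀ (s : Finset ℕ) (c d : ℕ → ℝ), (∀ n, |c n| ≤ |d n|) →
        ‖∑ n ∈ s, c n • x n‖ ≤ ‖∑ n ∈ s, d n • x n‖) ∧
      (∃ (J : Type) (_ : NormedAddCommGroup J) (_ : NormedSpace ℝ J) (ι : (ℕ →₀ ℝ) →ₗ[ℝ] J),
        IsJamesification x J ι) ∧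
      ∀ (J : Type) [NormedAddCommGroup J] [NormedSpace ℝ J] (ι : (ℕ →₀ ℝ) →ₗ[ℝ] J),
        IsJamesification x J ι →
          ∃ T : J ≃ₗᵢ[ℝ] J, T ≠ LinearIsometryEquiv.refl ℝ J ∧ T ≠ LinearIsometryEquiv.neg ℝ := by
  let b : HilbertBasis ℕ ℝ (lp (fun _ : ℕ => ℝ) 2) := HilbertBasis.ofRepr (LinearIsometryEquiv.refl ℝ _)
  refine ⟨(Fin 3 → ℝ) × lp (fun _ : ℕ => ℝ) 2, inferInstance, inferInstance, inferInstance, bas b,
    refl_prod _ _ refl_fin (refl_hilbert _), bas_basis b, bas_norm b,
    bas_mono b, exists_jam _ (bas_norm b), ?_⟩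
  intro J _ _ ι ⟨hc, hd, hn⟩
  have hinj : ∀ a, ι a = 0 → a = 0 := by
    intro a ha
    apply JNorm_eq_zero (bas_norm b)
    rw [← hn, ha, norm_zero]
  let f : (ℕ →₀ ℝ) ≃ₗ[ℝ] (ℕ →₀ ℝ) := LinearEquiv.ofInvolutive T0 T0_inv
  have hf : ∀ a, ‖ι (f a)‖ = ‖ι a‖ := by
    intro a
    rw [hn, hn]
    exact T0_eq b a
  refine ⟨f.extendOfIsometry ι ι hd hd hf, ?_, ?_⟩
  · intro heq
    have h1 : (f.extendOfIsometry ι ι hd hd hf) (ι (Finsupp.single 1 1)) =
        ι (f (Finsupp.single 1 1)) := LinearEquiv.extendOfIsometry_eq ..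
    rw [heq] at h1
    have h2 : ι (T0 (Finsupp.single 1 1) - Finsupp.single 1 1) = 0 := by
      rw [map_sub, sub_eq_zero]
      exact h1.symm
    have h3 := congrArg (fun a : ℕ →₀ ℝ => a 0) (hinj _ h2)
    simp only [Finsupp.coe_sub, Pi.sub_apply, T0_apply, w0, Finsupp.coe_zero, Pi.zero_apply] at h3
    norm_num at h3
  · intro heq
    have h1 : (f.extendOfIsometry ι ι hd hd hf) (ι (Finsupp.single 0 1)) =
        ι (f (Finsupp.single 0 1)) := LinearEquiv.extendOfIsometry_eq ..
    rw [heq] at h1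
    have h2 : ι (T0 (Finsupp.single 0 1) + Finsupp.single 0 1) = 0 := by
      rw [map_add]
      have : ι (T0 (Finsupp.single 0 1)) = - ι (Finsupp.single 0 1) := h1.symm
      rw [this, neg_add_cancel]
    have h3 := congrArg (fun a : ℕ →₀ ℝ => a 0) (hinj _ h2)
    simp only [Finsupp.coe_add, Pi.add_apply, T0_apply, w0, Finsupp.coe_zero, Pi.zero_apply] at h3
    norm_num at h3

end Pool.Agent.Results.MP_8db9c5_an.SwapIsometry
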